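import Pool.Agent.H43.CTRSUN

set_option autoImplicit false
open Pool.Agent.H43.CTRS

namespace Pool.Agent.Results.MP_a6fba8_lc.NotModular

/-- Unique normal forms is not modular for join conditional rewrite systems. -/
theorem result :
    ∃ (L₁ L₂ : FirstOrder.Language.{0, 0}) (R : Set (Rule L₁)) (S : Set (Rule L₂)),
      IsFiniteCTRS R ∧ IsFiniteCTRS S ∧ UN R ∧ UN S ∧ ¬ UN (union R S) :=
  ⟨L1, L2, R1, R2, fin1, fin2, UN1, UN2, notUN⟩

end Pool.Agent.Results.MP_a6fba8_lc.NotModular
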